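import Pool.Agent.H83.V.FV

/-!
Theorem V, row FZV: the values of the letters.
-/

set_option autoImplicit false

namespace Pool.Agent.H61.V

open Pool.Agent.H83.V Pool.Agent.H28.LF
open Pool.Agent.H24.MR (lam)

theorem pf_FZV : T_FZV := by
  intro n _
  have key : (if decide (lam n = 1) = true then (1 : ℤ) else -1) =
      (-1) ^ (ArithmeticFunction.cardFactors n) := by
    unfold lam
    rcases Nat.even_or_odd (ArithmeticFunction.cardFactors n) with h | h
    · rw [h.neg_one_pow, h.neg_one_pow]
      simp
    · rw [h.neg_one_pow, h.neg_one_pow]
      norm_num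
  constructor
  · unfold fz vl lt
    simp only [Bool.true_or, if_true]
    exact key
  · unfold fz vl lt
    simp only [Bool.false_or]
    by_cases hs : Squarefree n
    · have hm : ArithmeticFunction.moebius n ≠ 0 :=
        ArithmeticFunction.moebius_ne_zero_iff_squarefree.2 hs
      rw [if_pos (decide_eq_true hm), key, ArithmeticFunction.moebius_apply_of_squarefree hs]
    · have hm : ArithmeticFunction.moebius n = 0 :=
        ArithmeticFunction.moebius_eq_zero_of_not_squarefree hs
      rw [if_neg, hm]
      simp [hm]

end Pool.Agent.H61.V
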